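import Pool.Agent.Y718.FQ.Stm

/-!
# FQ-PI: products of irreducible sets with constant functions
-/

set_option autoImplicit false
set_option linter.unusedSectionVars false

namespace Pool.Agent.Y394.FQ

open MvPolynomial Pool.Agent.Y718.FQ

section res

variable {K : Type} [Field K] {ι : Type} [DecidableEq ι] {σ : ι → Type}

/-- The polynomial `g` on the factor `j`, the other coordinates being those of `x`. -/
noncomputable def res (x : ∀ i, σ i → K) (j : ι) (g : MvPolynomial ((i : ι) × σ i) K) :
    MvPolynomial (σ j) K :=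
  MvPolynomial.aeval (fun p : (i : ι) × σ i =>
    Function.update (β := fun i => σ i → MvPolynomial (σ j) K) (fun i r => C (x i r)) j
      (fun r => X r) p.1 p.2) g

lemma res_eval (x : ∀ i, σ i → K) (j : ι) (g : MvPolynomial ((i : ι) × σ i) K) (v : σ j → K) :
    eval v (res x j g) =
      eval (fun p : (i : ι) × σ i => Function.update (β := fun i => σ i → K) x j v p.1 p.2) g := by
  unfold res
  induction g using MvPolynomial.induction_on with
  | C c => simp
  | add p q hp hq => simp only [map_add, hp, hq]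
  | mul_X q p hq =>
    simp only [map_mul, hq, MvPolynomial.aeval_X, MvPolynomial.eval_X]
    congr 1
    rcases p with ⟨i, r⟩
    by_cases h : i = j
    · subst h
      simp
    · simp [h]

lemma upd_mem {X : ∀ i, Set (σ i → K)} {x : ∀ i, σ i → K} (hx : ∀ i, x i ∈ X i) {j : ι}
    {v : σ j → K} (hv : v ∈ X j) : ∀ i, Function.update (β := fun i => σ i → K) x j v i ∈ X i := by
  intro i
  by_cases h : i = j
  · subst h
    simpa using hv
  · simpa [h] using hx i

lemma upd_self (x : ∀ i, σ i → K) (j : ι) :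
    (fun p : (i : ι) × σ i => Function.update (β := fun i => σ i → K) x j (x j) p.1 p.2) =
      fun p => x p.1 p.2 := by
  rw [Function.update_eq_self]

lemma irr_aux (O : Set K) {X : ∀ i, Set (σ i → K)} (hX : ∀ i, CP O (X i))
    (g h : MvPolynomial ((i : ι) × σ i) K) (J : Finset ι) :
    ∀ x x' : ∀ i, σ i → K, (∀ i, x i ∈ X i) → (∀ i, x' i ∈ X i) → (∀ i, i ∉ J → x i = x' i) →
      eval (fun p : (i : ι) × σ i => x p.1 p.2) g ≠ 0 →
      eval (fun p : (i : ι) × σ i => x' p.1 p.2) h ≠ 0 →
      ∃ z : ∀ i, σ i → K, (∀ i, z i ∈ X i) ∧ eval (fun p : (i : ι) × σ i => z p.1 p.2) g ≠ 0 ∧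
        eval (fun p : (i : ι) × σ i => z p.1 p.2) h ≠ 0 := by
  induction J using Finset.induction_on with
  | empty =>
    intro x x' hx hx' hagree hg hh
    have : x = x' := funext fun i => hagree i (Finset.notMem_empty i)
    subst this
    exact ⟨x, hx, hg, hh⟩
  | insert j J hj ih =>
    intro x x' hx hx' hagree hg hh
    have hv : ∃ v ∈ X j, eval v (res x j g) ≠ 0 ∧ eval v (res x' j h) ≠ 0 := by
      by_contra hcon
      have h1 : ∀ v ∈ X j, eval v (res x j g) = 0 ∨ eval v (res x' j h) = 0 := by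
        intro v hv
        by_contra h2
        rw [not_or] at h2
        exact hcon ⟨v, hv, h2.1, h2.2⟩
      rcases (hX j).irr _ _ h1 with h2 | h2
      · have h3 := h2 (x j) (hx j)
        rw [res_eval, upd_self] at h3
        exact hg h3
      · have h3 := h2 (x' j) (hx' j)
        rw [res_eval, upd_self] at h3
        exact hh h3
    obtain ⟨v, hv, h1, h2⟩ := hv
    rw [res_eval] at h1 h2
    refine ih (Function.update x j v) (Function.update x' j v) (upd_mem hx hv) (upd_mem hx' hv) ?_
      h1 h2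
    intro i hi
    by_cases h : i = j
    · subst h
      simp
    · simpa [h] using hagree i (by simp [h, hi])

lemma const_aux (O : Set K) {X : ∀ i, Set (σ i → K)} (hX : ∀ i, CP O (X i))
    (p q : MvPolynomial ((i : ι) × σ i) K)
    (hO : ∀ x : ∀ i, σ i → K, (∀ i, x i ∈ X i) →
      eval (fun r : (i : ι) × σ i => x r.1 r.2) q ≠ 0 →
      eval (fun r : (i : ι) × σ i => x r.1 r.2) p / eval (fun r : (i : ι) × σ i => x r.1 r.2) q
        ∈ O) (J : Finset ι) :
    ∀ x x' : ∀ i, σ i → K, (∀ i, x i ∈ X i) → (∀ i, x' i ∈ X i) → (∀ i, i ∉ J → x i = x' i) →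
      eval (fun r : (i : ι) × σ i => x r.1 r.2) q ≠ 0 →
      eval (fun r : (i : ι) × σ i => x' r.1 r.2) q ≠ 0 →
      eval (fun r : (i : ι) × σ i => x r.1 r.2) p / eval (fun r : (i : ι) × σ i => x r.1 r.2) q =
      eval (fun r : (i : ι) × σ i => x' r.1 r.2) p /
        eval (fun r : (i : ι) × σ i => x' r.1 r.2) q := by
  induction J using Finset.induction_on with
  | empty =>
    intro x x' hx hx' hagree hg hh
    have : x = x' := funext fun i => hagree i (Finset.notMem_empty i)
    rw [this]
  | insert j J hj ih =>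
    intro x x' hx hx' hagree hg hh
    have hv : ∃ v ∈ X j, eval v (res x j q) ≠ 0 ∧ eval v (res x' j q) ≠ 0 := by
      by_contra hcon
      have h1 : ∀ v ∈ X j, eval v (res x j q) = 0 ∨ eval v (res x' j q) = 0 := by
        intro v hv
        by_contra h2
        rw [not_or] at h2
        exact hcon ⟨v, hv, h2.1, h2.2⟩
      rcases (hX j).irr _ _ h1 with h2 | h2
      · have h3 := h2 (x j) (hx j)
        rw [res_eval, upd_self] at h3
        exact hg h3
      · have h3 := h2 (x' j) (hx' j)
        rw [res_eval, upd_self] at h3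
        exact hh h3
    obtain ⟨v, hv, h1, h2⟩ := hv
    have key : ∀ y : ∀ i, σ i → K, (∀ i, y i ∈ X i) → eval v (res y j q) ≠ 0 →
        eval (fun r : (i : ι) × σ i => y r.1 r.2) q ≠ 0 →
        eval (fun r : (i : ι) × σ i => y r.1 r.2) p /
          eval (fun r : (i : ι) × σ i => y r.1 r.2) q =
        eval v (res y j p) / eval v (res y j q) := by
      intro y hy hvy hqy
      obtain ⟨c, hc⟩ := (hX j).const (res y j p) (res y j q) (by
        intro w hw hne
        rw [res_eval, res_eval]
        rw [res_eval] at hne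
        exact hO _ (upd_mem hy hw) hne) ⟨v, hv, hvy⟩
      have h3 := hc v hv
      have h4 := hc (y j) (hy j)
      rw [res_eval, res_eval, upd_self] at h4
      rw [h3, h4, mul_div_assoc, mul_div_assoc, div_self hvy, div_self hqy]
    rw [key x hx h1 hg, key x' hx' h2 hh]
    rw [res_eval] at h1 h2
    rw [res_eval, res_eval, res_eval, res_eval]
    refine ih (Function.update x j v) (Function.update x' j v) (upd_mem hx hv) (upd_mem hx' hv) ?_
      h1 h2
    intro i hi
    by_cases h : i = j
    · subst h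
      simp
    · simpa [h] using hagree i (by simp [h, hi])

end res

theorem pi : S_PI := by
  classical
  intro K _ O ι _ σ X hX
  have hirr : ∀ g h : MvPolynomial ((i : ι) × σ i) K,
      (∀ x ∈ {x : (i : ι) × σ i → K | ∀ i, (fun r => x ⟨i, r⟩) ∈ X i},
        eval x g = 0 ∨ eval x h = 0) →
      (∀ x ∈ {x : (i : ι) × σ i → K | ∀ i, (fun r => x ⟨i, r⟩) ∈ X i}, eval x g = 0) ∨
      ∀ x ∈ {x : (i : ι) × σ i → K | ∀ i, (fun r => x ⟨i, r⟩) ∈ X i}, eval x h = 0 := by
    intro g h hgh
    by_contra hcon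
    rw [not_or] at hcon
    obtain ⟨h1, h2⟩ := hcon
    push Not at h1 h2
    obtain ⟨x, hx, hgx⟩ := h1
    obtain ⟨x', hx', hhx⟩ := h2
    obtain ⟨z, hz, hz1, hz2⟩ := irr_aux O hX g h Finset.univ (fun i r => x ⟨i, r⟩)
      (fun i r => x' ⟨i, r⟩) hx hx' (fun i hi => absurd (Finset.mem_univ i) hi) hgx hhx
    rcases hgh (fun p => z p.1 p.2) hz with h3 | h3
    · exact hz1 h3
    · exact hz2 h3
  refine ⟨?_, hirr, ?_⟩
  · exact ⟨fun p => (hX p.1).ne.some p.2, fun i => (hX i).ne.some_mem⟩
  · intro p q hO hq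
    obtain ⟨x0, hx0, hq0⟩ := hq
    refine ⟨eval x0 p / eval x0 q, ?_⟩
    have h1 : ∀ x ∈ {x : (i : ι) × σ i → K | ∀ i, (fun r => x ⟨i, r⟩) ∈ X i},
        eval x (p - C (eval x0 p / eval x0 q) * q) = 0 ∨ eval x q = 0 := by
      intro x hx
      by_cases hqx : eval x q = 0
      · exact Or.inr hqx
      · left
        have h2 := const_aux O hX p q (fun y hy hne => hO (fun r => y r.1 r.2) hy hne) Finset.univ
          (fun i r => x ⟨i, r⟩) (fun i r => x0 ⟨i, r⟩) hx hx0
          (fun i hi => absurd (Finset.mem_univ i) hi) hqx hq0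
        have h3 : eval x p / eval x q = eval x0 p / eval x0 q := h2
        rw [map_sub, map_mul, eval_C, ← h3, div_mul_cancel₀ _ hqx, sub_self]
    rcases hirr _ _ h1 with h2 | h2
    · intro x hx
      have h3 := h2 x hx
      rw [map_sub, map_mul, eval_C, sub_eq_zero] at h3
      exact h3
    · exact absurd (h2 x0 hx0) hq0

end Pool.Agent.Y394.FQ
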